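import Pool.Agent.Lib_helper3.Iso.Final

/-!
# MP_6a769f_gt: the isoperimetric inequality for convex polyhedra with many vertices

There is a number `N` such that the conjectured inequality holds, strictly, for every convex polyhedron in Euclidean
3-space with at least `N` vertices.  The surface area is the Minkowski content, as in the frozen statement.
-/

open MeasureTheory Real Topology

theorem Pool.Agent.Results.MP_6a769f_gt.ManyVertices.result : ∃ N : ℕ,
    ∀ P : Set (EuclideanSpace ℝ (Fin 3)),
    (∃ S : Finset (EuclideanSpace ℝ (Fin 3)), P = convexHull ℝ (S : Set (EuclideanSpace ℝ (Fin 3)))) →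
    (interior P).Nonempty →
    ∀ n : ℕ, n = (Set.extremePoints ℝ P).ncard → N ≤ n →
    ∀ V : ℝ, V = (volume P).toReal →
    ∀ A : ℝ,
      Filter.Tendsto
        (fun ε : ℝ => ((volume (Metric.cthickening ε P)).toReal - V) / ε)
        (𝓝[>] (0 : ℝ)) (𝓝 A) →
      (27 * Real.sqrt 3 / 2) * ((n : ℝ) - 2) *
          (3 * Real.tan (π * (n : ℝ) / (6 * ((n : ℝ) - 2))) ^ 2 - 1) < A ^ 3 / V ^ 2 :=
  Iso.final
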